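import Mathlib

set_option autoImplicit false

namespace Pool.Agent.Results.MP_4ec7af_co.CycleTwenty

/-- `w` is a private neighbour of `v` with respect to the set `D` (closed neighbourhoods). -/
def IsPrivate {V : Type*} (G : SimpleGraph V) (D : Finset V) (v w : V) : Prop :=
  (w = v ∨ G.Adj v w) ∧ ∀ u ∈ D, u ≠ v → ¬ (w = u ∨ G.Adj u w)

/-- `D` is irredundant: every member has a private neighbour. -/
def Irredundant {V : Type*} (G : SimpleGraph V) (D : Finset V) : Prop :=
  ∀ v ∈ D, ∃ w, IsPrivate G D v w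

/-- `D` is an `IR(G)`-set: an irredundant set of maximum size. -/
def IsIRSet {V : Type*} (G : SimpleGraph V) (D : Finset V) : Prop :=
  Irredundant G D ∧ ∀ T : Finset V, Irredundant G T → T.card ≤ D.card

/-- The IR-graph `G(IR)`: its vertices are the IR-sets; `D, D'` are adjacent when
`D' = (D - {u}) ∪ {v}` with `u ∈ D`, `v ∈ D' - {u}` and `uv` an edge of `G`. -/
def IRGraph {V : Type*} [DecidableEq V] (G : SimpleGraph V) :
    SimpleGraph {D : Finset V // IsIRSet G D} where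
  Adj D D' := ∃ u ∈ D.1, ∃ v ∈ D'.1, v ≠ u ∧ G.Adj u v ∧ D'.1 = insert v (D.1.erase u)
  symm := ⟨by
    rintro ⟨D, hD⟩ ⟨D', hD'⟩ ⟨u, hu, v, hv, hvu, huv, hDD⟩
    simp only at hu hv hDD ⊢
    have hc1 := hD.2 D' hD'.1
    have hc2 := hD'.2 D hD.1
    have hvn : v ∉ D.erase u := by
      intro h
      rw [Finset.insert_eq_of_mem h] at hDD
      have := Finset.card_erase_lt_of_mem hu
      rw [← hDD] at this
      omega
    refine ⟨v, hv, u, hu, hvu.symm, huv.symm, ?_⟩
    rw [hDD, Finset.erase_insert hvn, Finset.insert_erase hu]⟩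
  loopless := ⟨by
    rintro ⟨D, hD⟩ ⟨u, hu, v, hv, hvu, huv, hDD⟩
    simp only at hu hDD
    rw [hDD] at hu
    rcases Finset.mem_insert.1 hu with h | h
    · exact hvu h.symm
    · exact (Finset.mem_erase.1 h).1 rfl⟩

namespace W

/-- adjacency rows of a graph on 12 vertices as bit masks -/
def row : Fin 12 → ℕ := ![894, 1773, 3291, 2487, 941, 1627, 3239, 2398, 3737, 3379, 2918, 1996]

/-- the graph -/
def G : SimpleGraph (Fin 12) where
  Adj a b := (row a).testBit b.val = true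
  symm := ⟨by decide +kernel⟩
  loopless := ⟨by decide +kernel⟩

instance : DecidableRel G.Adj := fun a b =>
  inferInstanceAs (Decidable ((row a).testBit b.val = true))

instance (D : Finset (Fin 12)) (v w : Fin 12) : Decidable (IsPrivate G D v w) := by
  unfold IsPrivate; infer_instance

instance (D : Finset (Fin 12)) : Decidable (Irredundant G D) := by
  unfold Irredundant; infer_instance

/-- the IR-sets in their cyclic or linear order -/
def sets : Fin 20 → Finset (Fin 12) :=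
  ![{0, 1, 10},
  {0, 7, 10},
  {6, 7, 10},
  {6, 7, 11},
  {2, 6, 11},
  {1, 2, 11},
  {1, 4, 11},
  {4, 7, 11},
  {4, 7, 8},
  {3, 7, 8},
  {2, 3, 8},
  {2, 5, 8},
  {4, 5, 8},
  {4, 5, 9},
  {0, 4, 9},
  {0, 3, 9},
  {3, 6, 9},
  {5, 6, 9},
  {5, 6, 10},
  {1, 5, 10}]

lemma sets_card : ∀ i, (sets i).card = 3 := by decide +kernel
lemma sets_irr : ∀ i, Irredundant G (sets i) := by decide +kernel
lemma sets_inj : ∀ i j, sets i = sets j → i = j := by decide +kernel

/-- closed neighbourhoods as bit masks -/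
def cn (v : Fin 12) : ℕ := row v ||| 2 ^ v.val

lemma cn_spec : ∀ v w : Fin 12, (cn v).testBit w.val = true ↔ (w = v ∨ G.Adj v w) := by
  decide +kernel

lemma quad : ∀ a b c d : Fin 12, a < b → b < c → c < d →
    ¬ ((cn a &&& (cn b ||| (cn c ||| cn d)) ≠ cn a) ∧
      (cn b &&& (cn a ||| (cn c ||| cn d)) ≠ cn b) ∧
      (cn c &&& (cn a ||| (cn b ||| cn d)) ≠ cn c) ∧
      (cn d &&& (cn a ||| (cn b ||| cn c)) ≠ cn d)) := by decide +kernel

lemma trip : ∀ a b c : Fin 12, a < b → b < c →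
    (cn a &&& (cn b ||| cn c) ≠ cn a) → (cn b &&& (cn a ||| cn c) ≠ cn b) →
    (cn c &&& (cn a ||| cn b) ≠ cn c) → ∃ i, sets i = {a, b, c} := by decide +kernel

lemma ne_of_bit {x y w : ℕ} (h1 : x.testBit w = true) (h2 : ¬ y.testBit w = true) :
    x &&& y ≠ x := by
  intro h
  have h3 := Nat.testBit_and x y w
  rw [h, h1] at h3
  simp only [Bool.not_eq_true] at h2
  rw [h2] at h3
  simp at h3

lemma mono {S T : Finset (Fin 12)} (hST : S ⊆ T) (hT : Irredundant G T) : Irredundant G S := by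
  intro v hv
  obtain ⟨w, h1, h2⟩ := hT v (hST hv)
  exact ⟨w, h1, fun u hu huv => h2 u (hST hu) huv⟩

lemma priv3 {D : Finset (Fin 12)} {v x y : Fin 12} (h : Irredundant G D) (hv : v ∈ D) (hx : x ∈ D)
    (hy : y ∈ D) (hxv : x ≠ v) (hyv : y ≠ v) : cn v &&& (cn x ||| cn y) ≠ cn v := by
  obtain ⟨w, h1, h2⟩ := h v hv
  apply ne_of_bit (w := w.val) ((cn_spec v w).2 h1)
  intro hb
  rw [Nat.testBit_or, Bool.or_eq_true] at hb
  rcases hb with hb | hb
  · exact h2 x hx hxv ((cn_spec x w).1 hb)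
  · exact h2 y hy hyv ((cn_spec y w).1 hb)

lemma priv4 {D : Finset (Fin 12)} {v x y z : Fin 12} (h : Irredundant G D) (hv : v ∈ D) (hx : x ∈ D)
    (hy : y ∈ D) (hz : z ∈ D) (hxv : x ≠ v) (hyv : y ≠ v) (hzv : z ≠ v) :
    cn v &&& (cn x ||| (cn y ||| cn z)) ≠ cn v := by
  obtain ⟨w, h1, h2⟩ := h v hv
  apply ne_of_bit (w := w.val) ((cn_spec v w).2 h1)
  intro hb
  rw [Nat.testBit_or, Bool.or_eq_true, Nat.testBit_or, Bool.or_eq_true] at hb
  rcases hb with hb | hb | hb
  · exact h2 x hx hxv ((cn_spec x w).1 hb)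
  · exact h2 y hy hyv ((cn_spec y w).1 hb)
  · exact h2 z hz hzv ((cn_spec z w).1 hb)

lemma exists_sorted3 (T : Finset (Fin 12)) (h : T.card = 3) :
    ∃ a b c, a < b ∧ b < c ∧ T = {a, b, c} := by
  have e := T.orderEmbOfFin h
  refine ⟨T.orderEmbOfFin h 0, T.orderEmbOfFin h 1, T.orderEmbOfFin h 2, ?_, ?_, ?_⟩
  · exact (T.orderEmbOfFin h).strictMono (by decide)
  · exact (T.orderEmbOfFin h).strictMono (by decide)
  · ext x
    have := Finset.range_orderEmbOfFin T h
    constructor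
    · intro hx
      have hx' : x ∈ Set.range (T.orderEmbOfFin h) := by rw [this]; exact hx
      obtain ⟨i, hi⟩ := hx'
      fin_cases i <;> simp [← hi]
    · intro hx
      simp only [Finset.mem_insert, Finset.mem_singleton] at hx
      rcases hx with hx | hx | hx <;> rw [hx] <;> exact Finset.orderEmbOfFin_mem T h _

lemma exists_sorted4 (T : Finset (Fin 12)) (h : T.card = 4) :
    ∃ a b c d, a < b ∧ b < c ∧ c < d ∧ a ∈ T ∧ b ∈ T ∧ c ∈ T ∧ d ∈ T := by
  refine ⟨T.orderEmbOfFin h 0, T.orderEmbOfFin h 1, T.orderEmbOfFin h 2, T.orderEmbOfFin h 3,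
    ?_, ?_, ?_, ?_, ?_, ?_, ?_⟩
  · exact (T.orderEmbOfFin h).strictMono (by decide)
  · exact (T.orderEmbOfFin h).strictMono (by decide)
  · exact (T.orderEmbOfFin h).strictMono (by decide)
  all_goals exact Finset.orderEmbOfFin_mem T h _

lemma irr_le : ∀ T : Finset (Fin 12), Irredundant G T → T.card ≤ 3 := by
  intro T hT
  by_contra hc
  obtain ⟨S, hST, hS⟩ := Finset.exists_subset_card_eq (s := T) (n := 4) (by omega)
  have hSi := mono hST hT
  obtain ⟨a, b, c, d, hab, hbc, hcd, ha, hb, hc', hd⟩ := exists_sorted4 S hS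
  exact quad a b c d hab hbc hcd
    ⟨priv4 hSi ha hb hc' hd hab.ne' (hab.trans hbc).ne' (hab.trans (hbc.trans hcd)).ne',
      priv4 hSi hb ha hc' hd hab.ne hbc.ne' (hbc.trans hcd).ne',
      priv4 hSi hc' ha hb hd (hab.trans hbc).ne hbc.ne hcd.ne',
      priv4 hSi hd ha hb hc' (hab.trans (hbc.trans hcd)).ne (hbc.trans hcd).ne hcd.ne⟩

lemma irr_eq : ∀ T : Finset (Fin 12), Irredundant G T → 3 ≤ T.card → ∃ i, sets i = T := by
  intro T hT h3
  have hc : T.card = 3 := le_antisymm (irr_le T hT) h3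
  obtain ⟨a, b, c, hab, hbc, rfl⟩ := exists_sorted3 T hc
  have ha : a ∈ ({a, b, c} : Finset (Fin 12)) := by simp
  have hb : b ∈ ({a, b, c} : Finset (Fin 12)) := by simp
  have hc' : c ∈ ({a, b, c} : Finset (Fin 12)) := by simp
  exact trip a b c hab hbc
    (priv3 hT ha hb hc' hab.ne' (hab.trans hbc).ne')
    (priv3 hT hb ha hc' hab.ne hbc.ne')
    (priv3 hT hc' ha hb (hab.trans hbc).ne hbc.ne)

lemma key : ∀ i j : Fin 20,
    (∃ u ∈ sets i, ∃ v ∈ sets j, v ≠ u ∧ G.Adj u v ∧ sets j = insert v ((sets i).erase u)) ↔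
      ((i - j).val = 1 ∨ (j - i).val = 1) := by decide +kernel

/-- the map into the IR-graph -/
def toV (i : Fin 20) : {D : Finset (Fin 12) // IsIRSet G D} :=
  ⟨sets i, sets_irr i, fun T hT => by
    rw [sets_card i]
    exact irr_le T hT⟩

lemma toV_bij : Function.Bijective toV := by
  constructor
  · intro i j h
    exact sets_inj i j (congrArg Subtype.val h)
  · rintro ⟨T, h1, h2⟩
    have h3 : 3 ≤ T.card := by
      have := h2 (sets 0) (sets_irr 0)
      rwa [sets_card 0] at this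
    obtain ⟨i, hi⟩ := irr_eq T h1 h3
    exact ⟨i, Subtype.ext hi⟩

lemma main : Nonempty (IRGraph G ≃g SimpleGraph.cycleGraph 20) := by
  refine ⟨RelIso.symm ⟨Equiv.ofBijective toV toV_bij, ?_⟩⟩
  intro i j
  rw [SimpleGraph.cycleGraph_adj', ← key i j]
  rfl

end W

/-- The cycle on twenty vertices is an IR-graph: there is a graph on twelve vertices whose IR-graph
is isomorphic to `C_20`.  Hence it is false that no cycle `C_n`, `n ≥ 5`, is an IR-graph. -/
theorem result :
    (∃ G : SimpleGraph (Fin 12), Nonempty (IRGraph G ≃g SimpleGraph.cycleGraph 20)) ∧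
    ¬ (∀ n : ℕ, 5 ≤ n → ∀ (m : ℕ) (G : SimpleGraph (Fin m)),
        IsEmpty (IRGraph G ≃g SimpleGraph.cycleGraph n)) := by
  refine ⟨⟨W.G, W.main⟩, fun H => ?_⟩
  exact (not_nonempty_iff.2 (H 20 (by norm_num) 12 W.G)) W.main

end Pool.Agent.Results.MP_4ec7af_co.CycleTwenty
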